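import Pool.Agent.MWGX.StmtsA

/-!
# Multiples and residues of the gap (row EAM of squad MWGX)

Problem MP_23468a_al.
-/

set_option autoImplicit false

namespace Pool.Agent.MWGX.HNN

open Pool.Agent.Helper14_MV Pool.Agent.Helper2_MV
open Pool.Agent.MWK (pre)
open Pool.Agent.MWF (gaml)
open Pool.Agent.MWGN (nn)
open Pool.Agent.MWGQ (pw Gn E0 A0 P0 PwxStmt)
open Pool.Agent.MWGR (X It Kaba F1 Dm Ec Es Ea Al0 Rh FE)

theorem pw_X (m k : ℕ) : pw m (X k) = X (m * k) := by
  induction m with
  | zero => simp [pw]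
  | succ m ih =>
    rw [pw_succ, ih, List.replicate_append_replicate]
    congr 1
    ring

/-- substitution `0 ↦ X k` in the two words -/
theorem sub0 (k i j l : ℕ) (T : List ℕ) (hT : 0 ∉ T) (a b : ℕ) (ha : a ≠ 0) (hb : b ≠ 0) :
    (X i ++ a :: (X j ++ b :: (X l ++ T))).flatMap (fun d => if d = 0 then X k else [d]) =
      X (i * k) ++ a :: (X (j * k) ++ b :: (X (l * k) ++ T)) := by
  have hT' : T.flatMap (fun d => if d = 0 then X k else [d]) = T := by
    induction T with
    | nil => rfl
    | cons t T ih =>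
      rw [List.flatMap_cons, ih (fun h => hT (List.mem_cons_of_mem _ h))]
      have : t ≠ 0 := fun h => hT (h ▸ List.mem_cons_self)
      simp [this]
  simp only [List.flatMap_append, List.flatMap_cons, flat_rep, if_true, pw_X, hT', if_neg ha,
    if_neg hb, List.cons_append, List.nil_append]

/-- substitution `3 ↦ X e ++ [3]` in the two words -/
theorem sub3 (e i j l : ℕ) (a b : ℕ) (ha : a ≠ 3) (hb : b ≠ 3) :
    (X i ++ a :: (X j ++ b :: (X l ++ [3, 1, 4, 2, 5, 1]))).flatMap
      (fun d => if d = 3 then X e ++ [3] else [d]) =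
      X i ++ a :: (X j ++ b :: (X (l + e) ++ [3, 1, 4, 2, 5, 1])) := by
  have h0 : ∀ m, (X m).flatMap (fun d => if d = 3 then X e ++ [3] else [d]) = X m := by
    intro m
    rw [flat_rep]
    have : pw m ([0] : List ℕ) = X m := by
      have := pw_X m 1
      simpa using this
    simpa using this
  have h1 : ([3, 1, 4, 2, 5, 1] : List ℕ).flatMap (fun d => if d = 3 then X e ++ [3] else [d]) =
      X e ++ [3, 1, 4, 2, 5, 1] := by
    simp
  rw [List.flatMap_append, List.flatMap_cons, List.flatMap_append, List.flatMap_cons,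
    List.flatMap_append, h0, h0, h0, h1, if_neg ha, if_neg hb]
  have h2 : X (l + e) = X l ++ X e :=
    (List.replicate_append_replicate (n := l) (m := e) (a := 0)).symm
  rw [h2]
  simp only [List.append_assoc, List.cons_append, List.nil_append]

theorem eam (h1 : FlxStmt) (h2 : DmlStmt) : EamStmt := by
  intro n θ hn hIt c hE
  have mod_add : ∀ x y : ℕ, x * n + y ≡ y [MOD n] := by
    intro x y
    unfold Nat.ModEq
    rw [Nat.mul_comm, Nat.mul_add_mod]
  -- three exponents
  have flx3 : ∀ (a b i j l i' j' l' : ℕ) (T : List ℕ), 1 ≤ i → 1 ≤ j → 1 ≤ l → 1 ≤ i' → 1 ≤ j' →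
      1 ≤ l' → i ≡ i' [MOD n] → j ≡ j' [MOD n] → l ≡ l' [MOD n] → a ∈ T → b ∈ T →
      RR θ (X i ++ a :: (X j ++ b :: (X l ++ T))) (X i' ++ a :: (X j' ++ b :: (X l' ++ T))) := by
    intro a b i j l i' j' l' T p1 p2 p3 p4 p5 p6 q1 q2 q3 ha hb
    have s1 := h1 n θ hIt a i j i' j' [] (b :: (X l ++ T)) p1 p2 p4 p5 q1 q2
      (List.mem_cons_of_mem _ (List.mem_append_right _ ha))
    have s2 := h1 n θ hIt b j' l j' l' (X i' ++ [a]) T p5 p3 p5 p6 rfl q3 hb
    have e : ∀ m m' : ℕ, X i' ++ a :: (X m ++ b :: (X m' ++ T)) =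
        (X i' ++ [a]) ++ (X m ++ b :: (X m' ++ T)) := by
      intro m m'
      simp
    refine θ.trans s1 ?_
    rw [List.nil_append, e, e]
    exact s2
  refine ⟨?_, ?_⟩
  · intro k hk
    have hs := RR.sub (fun d => if d = 0 then X k else [d]) hE
    rw [sub0 k n (n + c) n _ (by decide) 1 2 (by decide) (by decide),
      sub0 k (n + c) (n + (n - 1) * c) (n + c) _ (by decide) 2 1 (by decide) (by decide)] at hs
    have hnk : 1 ≤ n * k := Nat.mul_pos hn hk
    have w1 : n * k ≡ n [MOD n] := by
      unfold Nat.ModEq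
      rw [Nat.mul_mod_right, Nat.mod_self]
    have w2 : (n + c) * k ≡ n + k * c [MOD n] := by
      have := w1.add_right (k * c)
      rw [show (n + c) * k = n * k + k * c by ring]
      exact this
    have w3 : (n + (n - 1) * c) * k ≡ n + (n - 1) * (k * c) [MOD n] := by
      have := w1.add_right ((n - 1) * (k * c))
      rw [show (n + (n - 1) * c) * k = n * k + (n - 1) * (k * c) by ring]
      exact this
    have g1 : 1 ≤ (n + c) * k := Nat.mul_pos (by omega) hk
    have g2 : 1 ≤ (n + (n - 1) * c) * k := Nat.mul_pos (by omega) hk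
    have L := flx3 1 2 (n * k) ((n + c) * k) (n * k) n (n + k * c) n [3, 1, 4, 2, 5, 1] hnk g1 hnk
      hn (by omega) hn w1 w2 w1 (by decide) (by decide)
    have R := flx3 2 1 ((n + c) * k) ((n + (n - 1) * c) * k) ((n + c) * k) (n + k * c)
      (n + (n - 1) * (k * c)) (n + k * c) [3, 1, 4, 2, 5, 1] g1 g2 g1
      (by omega) (by omega) (by omega) w2 w3 w2 (by decide) (by decide)
    exact θ.trans (θ.trans L.symm hs) R
  · intro δ hδ c' hc
    have hs := RR.sub (fun d => if d = 3 then X (c' + (n - 1) * c) ++ [3] else [d]) hE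
    rw [sub3 _ n (n + c) n 1 2 (by decide) (by decide),
      sub3 _ (n + c) (n + (n - 1) * c) (n + c) 2 1 (by decide) (by decide)] at hs
    obtain ⟨m, rfl⟩ : ∃ m, n = m + 1 := ⟨n - 1, by omega⟩
    rw [Nat.add_sub_cancel] at hs
    have hd := hδ.dv
    have z0 : ∀ x y : ℕ, x * (m + 1) + y ≡ y [MOD δ] := by
      intro x y
      exact (mod_add x y).of_dvd hd
    have z1 : ∀ x : ℕ, x * (m + 1) ≡ 0 [MOD δ] := by
      intro x
      exact z0 x 0
    have L := h2 (m + 1) θ δ hn hIt hδ 1 2 (m + 1) (m + 1 + c) (m + 1 + (c' + m * c))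
      (m + 1) (m + 1 + c') (m + 1) [3, 1, 4, 2, 5, 1] hn (by omega) (by omega) hn (by omega) hn
      (by decide) (by decide) rfl
      (by
        have := (hc.add_left (m + 1)).add_left (m + 1)
        exact this)
      (by
        have a1 := mod_add (c + 3) c'
        have a2 := mod_add 3 c'
        rw [show m + 1 + (m + 1 + c) + (m + 1 + (c' + m * c)) = (c + 3) * (m + 1) + c' by ring,
          show m + 1 + (m + 1 + c') + (m + 1) = 3 * (m + 1) + c' by ring]
        exact a1.trans a2.symm)
    have R := h2 (m + 1) θ δ hn hIt hδ 2 1 (m + 1 + c) (m + 1 + m * c)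
      (m + 1 + c + (c' + m * c)) (m + 1 + c') (m + 1 + m * c') (m + 1 + c')
      [3, 1, 4, 2, 5, 1] (by omega) (by omega) (by omega) (by omega) (by omega) (by omega)
      (by decide) (by decide) (hc.add_left (m + 1))
      (by
        have a1 := z1 (c + 2)
        have a2 := z1 (c' + 2)
        rw [show m + 1 + c + (m + 1 + m * c) = (c + 2) * (m + 1) by ring,
          show m + 1 + c' + (m + 1 + m * c') = (c' + 2) * (m + 1) by ring]
        exact a1.trans a2.symm)
      (by
        have a1 := mod_add (2 * c + 3) c'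
        have a2 := mod_add (c' + 3) c'
        rw [show m + 1 + c + (m + 1 + m * c) + (m + 1 + c + (c' + m * c)) =
          (2 * c + 3) * (m + 1) + c' by ring,
          show m + 1 + c' + (m + 1 + m * c') + (m + 1 + c') = (c' + 3) * (m + 1) + c' by ring]
        exact a1.trans a2.symm)
    exact θ.trans (θ.trans L.symm hs) R

end Pool.Agent.MWGX.HNN
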