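import Pool.Agent.MWGX.StmtsA
import Pool.Agent.Helper81_MWGQ.NOB

/-!
# `F1` and `F` imply `Kaba` (row F1K of squad MWGX)

Problem MP_23468a_al.
-/

set_option autoImplicit false

namespace Pool.Agent.MWGX.HNN

open Pool.Agent.Helper14_MV Pool.Agent.Helper2_MV
open Pool.Agent.MWK (pre)
open Pool.Agent.MWF (gaml)
open Pool.Agent.MWGN (nn)
open Pool.Agent.MWGQ (pw Gn E0 A0 P0 PwxStmt)
open Pool.Agent.MWGR (X It Kaba F1 Dm Ec Es Ea Al0 Rh FE)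

theorem xs2 (m : ℕ) : X (m + 1 + 1) = X m ++ [0, 0] :=
  (List.replicate_append_replicate (n := m) (m := 2) (a := 0)).symm

theorem xp2 (m : ℕ) : X (m + 1 + 1) = [0, 0] ++ X m := rfl

/-- the common part -/
theorem f1k_aux {n : ℕ} {β : FIC} (hP : ∀ (X u : List ℕ) (a b : ℕ), 1 ≤ a → 1 ≤ b →
    a ≡ b [MOD n] → RR β (X ++ (u ++ pw a X)) (X ++ (u ++ pw b X))) (hn : 1 ≤ n)
    (hF : F1 n (RR β)) (u : List ℕ) (h0 : 0 ∈ u) :
    RR β (u ++ [2, 0, 3, 1, 4, 0])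
      (u ++ 2 :: (X (n + 1) ++ 3 :: (X n ++ 1 :: 4 :: X (n + 1)))) := by
  have hk1 : n + 1 ≡ 1 [MOD n] := by
    unfold Nat.ModEq
    rw [Nat.add_mod_left]
  have s1 := MWGQ.H81.gpow' hP 0 (n + 1) (by omega) hk1 (u ++ [2]) [3, 1, 4, 0]
    (List.mem_append_left _ h0)
  have s2 := MWGQ.H81.gpow' hP 0 (n + 1) (by omega) hk1 (u ++ 2 :: (X (n + 1) ++ [3, 1, 4])) []
    (List.mem_append_left _ h0)
  have s3 := RR.sub (fun d => if d = 0 then [0] else if d = 2 then [3] else [1, 4]) hF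
  have e1 : ([0, 0, 2, 3, 0, 0] : List ℕ).flatMap
      (fun d => if d = 0 then [0] else if d = 2 then [3] else [1, 4]) = [0, 0, 3, 1, 4, 0, 0] := by
    rfl
  have e2 : (([0, 0, 2] : List ℕ) ++ (X n ++ [3, 0, 0])).flatMap
      (fun d => if d = 0 then [0] else if d = 2 then [3] else [1, 4]) =
      [0, 0, 3] ++ (X n ++ [1, 4, 0, 0]) := by
    rw [List.flatMap_append, List.flatMap_append, flat_rep]
    simp only [if_true, MWGQ.H81.pw_one]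
    rfl
  rw [e1, e2] at s3
  obtain ⟨m, rfl⟩ : ∃ m, n = m + 1 := ⟨n - 1, by omega⟩
  have s4 := ((RR.refl (β := β) (u ++ 2 :: X m)).append s3).append (RR.refl (X m))
  have t1 : RR β (u ++ [2, 0, 3, 1, 4, 0]) (u ++ 2 :: (X (m + 1 + 1) ++ [3, 1, 4, 0])) := by
    have := s1.symm
    simpa using this
  have t2 : RR β (u ++ 2 :: (X (m + 1 + 1) ++ [3, 1, 4, 0]))
      (u ++ 2 :: (X (m + 1 + 1) ++ 3 :: 1 :: 4 :: X (m + 1 + 1))) := by
    have := s2.symm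
    simpa using this
  have t3 : RR β (u ++ 2 :: (X (m + 1 + 1) ++ 3 :: 1 :: 4 :: X (m + 1 + 1)))
      (u ++ 2 :: (X (m + 1 + 1) ++ 3 :: (X (m + 1) ++ 1 :: 4 :: X (m + 1 + 1)))) := by
    have a1 : u ++ 2 :: (X (m + 1 + 1) ++ 3 :: 1 :: 4 :: X (m + 1 + 1)) =
        (u ++ 2 :: X m) ++ [0, 0, 3, 1, 4, 0, 0] ++ X m := by
      conv_lhs => rw [show (u ++ 2 :: (X (m + 1 + 1) ++ 3 :: 1 :: 4 :: X (m + 1 + 1))) =
        (u ++ 2 :: (X (m + 1 + 1) ++ ([3, 1, 4] ++ X (m + 1 + 1)))) from rfl]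
      conv_lhs => rw [show (u ++ 2 :: (X (m + 1 + 1) ++ ([3, 1, 4] ++ X (m + 1 + 1)))) =
        (u ++ 2 :: ((X m ++ [0, 0]) ++ ([3, 1, 4] ++ ([0, 0] ++ X m)))) by
          rw [← xs2, ← xp2]]
      simp
    have a2 : u ++ 2 :: (X (m + 1 + 1) ++ 3 :: (X (m + 1) ++ 1 :: 4 :: X (m + 1 + 1))) =
        (u ++ 2 :: X m) ++ ([0, 0, 3] ++ (X (m + 1) ++ [1, 4, 0, 0])) ++ X m := by
      conv_lhs => rw [show (u ++ 2 :: (X (m + 1 + 1) ++ 3 :: (X (m + 1) ++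
        1 :: 4 :: X (m + 1 + 1)))) =
        (u ++ 2 :: ((X m ++ [0, 0]) ++ 3 :: (X (m + 1) ++ 1 :: 4 :: ([0, 0] ++ X m)))) by
          rw [← xs2, ← xp2]]
      simp only [List.append_assoc, List.cons_append, List.nil_append]
    rw [a1, a2]
    exact s4
  exact β.trans (β.trans t1 t2) t3

theorem f1k (h1 : PwxStmt) : F1kStmt := by
  intro n β hG hF1 hF
  obtain ⟨-, hP, -⟩ := h1 n β hG
  have hn := hG.pos
  have b1 := f1k_aux hP hn hF1 [0, 1] (by simp)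
  have b2 := f1k_aux hP hn hF1 [1, 0] (by simp)
  have b3 : RR β ([0, 1] ++ 2 :: (X (n + 1) ++ 3 :: (X n ++ 1 :: 4 :: X (n + 1))))
      ([1, 0] ++ 2 :: (X (n + 1) ++ 3 :: (X n ++ 1 :: 4 :: X (n + 1)))) := by
    obtain ⟨m, rfl⟩ : ∃ m, n = m + 1 := ⟨n - 1, by omega⟩
    have h := hF [] (2 :: (X (m + 1 + 1) ++ 3 :: X m)) [] (4 :: X (m + 1 + 1)) 0 1
      (by intro a ha; simp at ha)
    have e : ∀ x y : ℕ, ([x, y] : List ℕ) ++ 2 :: (X (m + 1 + 1) ++ 3 :: (X (m + 1) ++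
        1 :: 4 :: X (m + 1 + 1))) = [] ++ x :: y :: ((2 :: (X (m + 1 + 1) ++ 3 :: X m)) ++
        0 :: ([] ++ 1 :: 4 :: X (m + 1 + 1))) := by
      intro x y
      rw [show X (m + 1) = X m ++ [0] from List.replicate_succ']
      simp only [List.append_assoc, List.cons_append, List.nil_append]
    rw [e 0 1, e 1 0]
    exact h
  exact β.trans (β.trans b1 b3) b2.symm

end Pool.Agent.MWGX.HNN
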