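import Pool.Agent.MWGX.StmtsB

/-!
# The word of the doubling pentagon with a gap, level 1 (row SA1 of squad MWGX)

Problem MP_23468a_al.  The structure follows `Helper32_MWGQ/SA1.lean`.
-/

set_option autoImplicit false

namespace Pool.Agent.MWGX.H81

open Pool.Agent.Helper14_MV Pool.Agent.Helper2_MV
open Pool.Agent.MWK (pre)
open Pool.Agent.MWF (gaml)
open Pool.Agent.MWGN (nn Nm WC WT Tau Ns nl sg)
open Pool.Agent.MWGQ (pw Gn E0 A0 P0 bd kr krl Rs)
open Pool.Agent.MWGR (X It Kaba F1 Dm Ec Es Ea Al0 Rh FE)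

theorem cbd (n : ℕ) (L C : ℕ → ℕ) (k z : ℕ) : (bd n (sg L) (sg C) (k + 1)).count z =
    (bd n (sg L) (sg C) k).count z + (if L k = z then 1 else 0) +
      (if C k = z then n + 1 else 0) := by
  unfold bd
  rw [List.range_succ, List.flatMap_append, List.count_append]
  simp only [List.flatMap_cons, List.flatMap_nil, List.append_nil, sg, pw_one,
    List.count_append, List.count_cons, List.count_nil, List.count_replicate, beq_iff_eq]
  omega

theorem cB1 (n k z : ℕ) : (bd n (sg N1.L) (sg N1.C) k).count z =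
    (if z % 6 = 2 ∧ 8 ≤ z ∧ z < 8 + 6 * k then 1 else 0) +
      (if z % 6 = 3 ∧ 9 ≤ z ∧ z < 9 + 6 * k then n + 1 else 0) := by
  induction k with
  | zero =>
    have h : bd n (sg N1.L) (sg N1.C) 0 = [] := rfl
    rw [h, List.count_nil]
    split_ifs <;> omega
  | succ k ih =>
    rw [cbd, ih]
    have h1 : N1.L k = 8 + 6 * k := rfl
    have h2 : N1.C k = 9 + 6 * k := rfl
    rw [h1, h2]
    split_ifs <;> omega

theorem cB2 (n m k z : ℕ) : (bd n (sg (N2 m).L) (sg (N2 m).C) k).count z =
    (if z % 6 = 5 ∧ 11 ≤ z ∧ z < 11 + 6 * k then 1 else 0) +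
      (if z % 6 = 0 ∧ 12 ≤ z ∧ z < 12 + 6 * k then n + 1 else 0) := by
  induction k with
  | zero =>
    have h : bd n (sg (N2 m).L) (sg (N2 m).C) 0 = [] := rfl
    rw [h, List.count_nil]
    split_ifs <;> omega
  | succ k ih =>
    rw [cbd, ih]
    have h1 : (N2 m).L k = 11 + 6 * k := rfl
    have h2 : (N2 m).C k = 12 + 6 * k := rfl
    rw [h1, h2]
    split_ifs <;> omega

/-- blocks of level 1 -/
theorem cT1 (n m i z : ℕ) (hz : z % 6 ≠ 5 ∨ z ≤ 5) (hz' : z % 6 ≠ 0 ∨ z ≤ 6) :
    (N1.S i :: T1 n m i).count z = (if z = 7 + 6 * i then 1 else 0) +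
      (if z = 8 + 6 * i then 1 else 0) + (if i = m ∧ z = 14 + 6 * m then 1 else 0) := by
  have h0 : N1.S i = 7 + 6 * i := rfl
  have h1 : N1.L i = 8 + 6 * i := rfl
  have h2 : N1.L m = 8 + 6 * m := rfl
  have h3 : N1.L (m + 1) = 8 + 6 * (m + 1) := rfl
  have h4 : (N2 m).L (m + 2) = 11 + 6 * (m + 2) := rfl
  unfold T1
  by_cases him : i = m
  · subst him
    rw [if_pos rfl, List.count_cons, List.count_cons, List.count_append, cB2, h0, h1, h3, h4]
    simp only [List.count_cons, List.count_nil, beq_iff_eq, true_and]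
    split_ifs <;> omega
  · rw [if_neg him, h0, h1]
    simp only [List.count_cons, List.count_nil, beq_iff_eq]
    split_ifs <;> omega

/-- blocks of level 2 -/
theorem cT2 (m i z : ℕ) (hz : z % 6 ≠ 5 ∨ z ≤ 5) (hz' : z % 6 ≠ 4 ∨ z ≤ 4) :
    ((N2 m).S i :: T2 m i).count z = 0 := by
  have h0 : (N2 m).S i = 10 + 6 * i := rfl
  have h1 : (N2 m).L i = 11 + 6 * i := rfl
  have h2 : (N2 m).L m = 11 + 6 * m := rfl
  have h4 : (N2 m).L (m + 1) = 11 + 6 * (m + 1) := rfl
  have h5 : (N2 m).L (m + 2) = 11 + 6 * (m + 2) := rfl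
  unfold T2
  by_cases him : i = m
  · subst him
    rw [if_pos rfl, h0, h1, h4, h5]
    simp only [List.count_cons, List.count_nil, beq_iff_eq]
    split_ifs <;> omega
  · rw [if_neg him, h0, h1]
    simp only [List.count_cons, List.count_nil, beq_iff_eq]
    split_ifs <;> omega

theorem cfm_zero {τ : List ℕ} {f : ℕ → List ℕ} {z : ℕ} (h : ∀ i ∈ τ, (f i).count z = 0) :
    (τ.flatMap f).count z = 0 := by
  induction τ with
  | nil => rfl
  | cons a τ ih =>
    rw [List.flatMap_cons, List.count_append, h a (by simp),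
      ih (fun i hi => h i (List.mem_cons_of_mem _ hi))]

theorem cfm_one {τ : List ℕ} {f : ℕ → List ℕ} {z a : ℕ} (hn : τ.Nodup) (ha : a ∈ τ)
    (h : ∀ i ∈ τ, i ≠ a → (f i).count z = 0) : (τ.flatMap f).count z = (f a).count z := by
  induction τ with
  | nil => simp at ha
  | cons b τ ih =>
    rw [List.flatMap_cons, List.count_append]
    rw [List.nodup_cons] at hn
    rcases List.mem_cons.1 ha with rfl | h3
    · rw [cfm_zero, Nat.add_zero]
      intro i hi
      exact h i (List.mem_cons_of_mem _ hi) (fun h => hn.1 (h ▸ hi))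
    · rw [h b (by simp) (fun h => hn.1 (h ▸ h3)), Nat.zero_add]
      exact ih hn.2 h3 (fun i hi => h i (List.mem_cons_of_mem _ hi))

/-- the tails of level 1 -/
theorem cTT {τ : List ℕ} {n m : ℕ} (hτ : Tau τ m) (z : ℕ) (hz : z % 6 ≠ 5 ∨ z ≤ 5)
    (hz' : z % 6 ≠ 0 ∨ z ≤ 6) :
    (τ.flatMap (fun i => N1.S i :: T1 n m i)).count z =
      (if (z % 6 = 1 ∧ 7 ≤ z ∧ z ≤ 7 + 6 * m) ∨ (z % 6 = 2 ∧ 8 ≤ z ∧ z ≤ 14 + 6 * m) then 1
        else 0) := by
  by_cases h5 : z % 6 = 1 ∧ 7 ≤ z ∧ z ≤ 7 + 6 * m
  · have hm : z / 6 - 1 ∈ τ := (hτ.2 _).2 (by omega)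
    rw [cfm_one hτ.1 hm, cT1 n m _ z hz hz']
    · split_ifs <;> omega
    · intro i hi hne
      rw [cT1 n m _ z hz hz']
      split_ifs <;> omega
  · by_cases h6 : z % 6 = 2 ∧ 8 ≤ z ∧ z ≤ 14 + 6 * m
    · by_cases h7 : z = 14 + 6 * m
      · have hm : m ∈ τ := (hτ.2 _).2 (by omega)
        rw [cfm_one hτ.1 hm, cT1 n m _ z hz hz']
        · split_ifs <;> omega
        · intro i hi hne
          have := (hτ.2 i).1 hi
          rw [cT1 n m _ z hz hz']
          split_ifs <;> omega
      · have hm : z / 6 - 1 ∈ τ := (hτ.2 _).2 (by omega)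
        rw [cfm_one hτ.1 hm, cT1 n m _ z hz hz']
        · split_ifs <;> omega
        · intro i hi hne
          rw [cT1 n m _ z hz hz']
          split_ifs <;> omega
    · rw [cfm_zero]
      · split_ifs <;> omega
      · intro i hi
        have := (hτ.2 i).1 hi
        rw [cT1 n m _ z hz hz']
        split_ifs <;> omega

/-- the first part -/
def hH (n : ℕ) : List ℕ :=
  List.replicate n 5 ++ 0 :: (List.replicate (n + 1) 5 ++ 1 :: (List.replicate n 5 ++ [2, 0]))

/-- the middle part without `3` -/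
def hM (n m : ℕ) : List ℕ :=
  List.replicate n 6 ++ (8 + 6 * m) :: (List.replicate (n + 1) 6 ++ (14 + 6 * m) ::
    (List.replicate n 6 ++ [1]))

theorem cH (n z : ℕ) : (hH n).count z =
    (if z = 0 then 2 else 0) + (if z = 1 then 1 else 0) + (if z = 2 then 1 else 0) +
      (if z = 5 then 3 * n + 1 else 0) := by
  simp only [hH, List.count_append, List.count_cons, List.count_nil, List.count_replicate,
    beq_iff_eq]
  split_ifs <;> omega

theorem cM (n m z : ℕ) : (hM n m).count z =
    (if z = 8 + 6 * m ∨ z = 14 + 6 * m then 1 else 0) + (if z = 1 then 1 else 0) +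
      (if z = 6 then 3 * n + 1 else 0) := by
  simp only [hM, List.count_append, List.count_cons, List.count_nil, List.count_replicate,
    beq_iff_eq]
  split_ifs <;> omega

/-- the word -/
theorem wform (n : ℕ) (τ : List ℕ) (m : ℕ) : w0 n τ m true true =
    hH n ++ (bd n (sg N1.L) (sg N1.C) m ++ (hM n m ++ 3 ::
      (τ.flatMap (fun i => N1.S i :: T1 n m i) ++
        4 :: τ.flatMap (fun i => (N2 m).S i :: T2 m i)))) := by
  have h2 : N1.L m = 8 + 6 * m := rfl
  have h3 : N1.L (m + 1) = 14 + 6 * m := by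
    show 8 + 6 * (m + 1) = 14 + 6 * m
    ring
  unfold w0 ww
  rw [if_pos rfl, if_pos rfl, h2, h3]
  simp only [gL, pw_one, hH, hM, List.append_assoc, List.cons_append, List.nil_append]

theorem cT2z (τ : List ℕ) (m z : ℕ) (hz : z % 6 ≠ 5 ∨ z ≤ 5) (hz' : z % 6 ≠ 4 ∨ z ≤ 4) :
    (τ.flatMap (fun i => (N2 m).S i :: T2 m i)).count z = 0 :=
  cfm_zero (fun i _ => cT2 m i z hz hz')

/-- the counts of the word -/
theorem cw {τ : List ℕ} {n m : ℕ} (hτ : Tau τ m) (z : ℕ) (hz : z % 6 ≠ 5 ∨ z ≤ 5)
    (hz' : z % 6 ≠ 0 ∨ z ≤ 6) (hz2 : z % 6 ≠ 4) :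
    (w0 n τ m true true).count z =
      ((if z = 0 then 2 else 0) + (if z = 1 then 1 else 0) + (if z = 2 then 1 else 0) +
        (if z = 5 then 3 * n + 1 else 0)) +
      (((if z % 6 = 2 ∧ 8 ≤ z ∧ z < 8 + 6 * m then 1 else 0) +
        (if z % 6 = 3 ∧ 9 ≤ z ∧ z < 9 + 6 * m then n + 1 else 0)) +
      (((if z = 8 + 6 * m ∨ z = 14 + 6 * m then 1 else 0) + (if z = 1 then 1 else 0) +
        (if z = 6 then 3 * n + 1 else 0)) + ((if z = 3 then 1 else 0) +
          (if (z % 6 = 1 ∧ 7 ≤ z ∧ z ≤ 7 + 6 * m) ∨ (z % 6 = 2 ∧ 8 ≤ z ∧ z ≤ 14 + 6 * m) then 1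
            else 0)))) := by
  rw [wform, List.count_append, List.count_append, List.count_append, List.count_cons,
    List.count_append, List.count_cons, cTT hτ z hz hz', cT2z τ m z hz (Or.inl hz2), cH, cB1, cM]
  simp only [beq_iff_eq]
  rw [if_neg (show ¬ (4 = z) by omega)]
  have e3 : (if 3 = z then 1 else 0) = (if z = 3 then 1 else 0) := by
    split_ifs <;> omega
  rw [e3]
  omega

theorem w_0 {τ : List ℕ} {n m : ℕ} (hτ : Tau τ m) : (w0 n τ m true true).count 0 = 2 := by
  rw [cw hτ 0 (by omega) (by omega) (by omega),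
    if_neg (show ¬ (0 = 8 + 6 * m ∨ 0 = 14 + 6 * m) by omega)]
  simp

theorem w_1 {τ : List ℕ} {n m : ℕ} (hτ : Tau τ m) : (w0 n τ m true true).count 1 = 2 := by
  rw [cw hτ 1 (by omega) (by omega) (by omega),
    if_neg (show ¬ (1 = 8 + 6 * m ∨ 1 = 14 + 6 * m) by omega)]
  simp

theorem w_2 {τ : List ℕ} {n m : ℕ} (hτ : Tau τ m) : (w0 n τ m true true).count 2 = 1 := by
  rw [cw hτ 2 (by omega) (by omega) (by omega),
    if_neg (show ¬ (2 = 8 + 6 * m ∨ 2 = 14 + 6 * m) by omega)]
  simp

theorem w_3 {τ : List ℕ} {n m : ℕ} (hτ : Tau τ m) : (w0 n τ m true true).count 3 = 1 := by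
  rw [cw hτ 3 (by omega) (by omega) (by omega),
    if_neg (show ¬ (3 = 8 + 6 * m ∨ 3 = 14 + 6 * m) by omega)]
  simp

theorem w_5 {τ : List ℕ} {n m : ℕ} (hτ : Tau τ m) :
    (w0 n τ m true true).count 5 = 3 * n + 1 := by
  rw [cw hτ 5 (by omega) (by omega) (by omega),
    if_neg (show ¬ (5 = 8 + 6 * m ∨ 5 = 14 + 6 * m) by omega)]
  simp

theorem w_L {τ : List ℕ} {n m : ℕ} (hτ : Tau τ m) (i : ℕ) (hi : i ≤ m + 1) :
    (w0 n τ m true true).count (8 + 6 * i) = 2 := by
  rw [cw hτ _ (by omega) (by omega) (by omega), if_neg (show ¬ (8 + 6 * i = 0) by omega),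
    if_neg (show ¬ (8 + 6 * i = 1) by omega), if_neg (show ¬ (8 + 6 * i = 2) by omega),
    if_neg (show ¬ (8 + 6 * i = 5) by omega), if_neg (show ¬ (8 + 6 * i = 6) by omega),
    if_neg (show ¬ (8 + 6 * i = 3) by omega),
    if_neg (show ¬ ((8 + 6 * i) % 6 = 3 ∧ 9 ≤ 8 + 6 * i ∧ 8 + 6 * i < 9 + 6 * m) by omega)]
  split_ifs <;> omega

theorem w_C {τ : List ℕ} {n m : ℕ} (hτ : Tau τ m) (i : ℕ) (hi : i < m) :
    (w0 n τ m true true).count (9 + 6 * i) = n + 1 := by
  rw [cw hτ _ (by omega) (by omega) (by omega), if_neg (show ¬ (9 + 6 * i = 0) by omega),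
    if_neg (show ¬ (9 + 6 * i = 1) by omega), if_neg (show ¬ (9 + 6 * i = 2) by omega),
    if_neg (show ¬ (9 + 6 * i = 5) by omega), if_neg (show ¬ (9 + 6 * i = 6) by omega),
    if_neg (show ¬ (9 + 6 * i = 3) by omega),
    if_pos (show (9 + 6 * i) % 6 = 3 ∧ 9 ≤ 9 + 6 * i ∧ 9 + 6 * i < 9 + 6 * m by omega)]
  split_ifs <;> omega

theorem w_S {τ : List ℕ} {n m : ℕ} (hτ : Tau τ m) (i : ℕ) (hi : i ≤ m) :
    (w0 n τ m true true).count (7 + 6 * i) = 1 := by
  rw [cw hτ _ (by omega) (by omega) (by omega), if_neg (show ¬ (7 + 6 * i = 0) by omega),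
    if_neg (show ¬ (7 + 6 * i = 1) by omega), if_neg (show ¬ (7 + 6 * i = 2) by omega),
    if_neg (show ¬ (7 + 6 * i = 5) by omega), if_neg (show ¬ (7 + 6 * i = 6) by omega),
    if_neg (show ¬ (7 + 6 * i = 3) by omega)]
  split_ifs <;> omega

/-! ### the initial parts -/

theorem nm_of_count {w : List ℕ} {z : ℕ} (h : w.count z = 0) : z ∉ w := List.count_eq_zero.1 h

theorem nm_rep {k c z : ℕ} (h : z ≠ c) : z ∉ List.replicate k c := by
  intro h1
  exact h (List.eq_of_mem_replicate h1)

theorem pre0 (n : ℕ) (τ : List ℕ) (m : ℕ) : pre (w0 n τ m true true) 0 =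
    List.replicate n 5 := by
  rw [wform]
  unfold hH
  rw [List.append_assoc, List.cons_append]
  exact MWK.pre_split (nm_rep (show (0 : ℕ) ≠ 5 by omega)) _

theorem pre1 (n : ℕ) (τ : List ℕ) (m : ℕ) : pre (w0 n τ m true true) 1 =
    List.replicate n 5 ++ 0 :: List.replicate (n + 1) 5 := by
  have e : w0 n τ m true true = (List.replicate n 5 ++ 0 :: List.replicate (n + 1) 5) ++ 1 ::
      (List.replicate n 5 ++ [2, 0] ++ (bd n (sg N1.L) (sg N1.C) m ++ (hM n m ++ 3 ::
      (τ.flatMap (fun i => N1.S i :: T1 n m i) ++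
        4 :: τ.flatMap (fun i => (N2 m).S i :: T2 m i))))) := by
    rw [wform]
    simp only [hH, List.append_assoc, List.cons_append, List.nil_append]
  rw [e]
  apply MWK.pre_split
  intro h
  rcases List.mem_append.1 h with h | h
  · exact nm_rep (by omega) h
  · rcases List.mem_cons.1 h with h | h
    · omega
    · exact nm_rep (by omega) h

theorem pre2 (n : ℕ) (τ : List ℕ) (m : ℕ) : pre (w0 n τ m true true) 2 =
    List.replicate n 5 ++ 0 :: (List.replicate (n + 1) 5 ++ 1 :: List.replicate n 5) := by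
  have e : w0 n τ m true true = (List.replicate n 5 ++ 0 :: (List.replicate (n + 1) 5 ++
      1 :: List.replicate n 5)) ++ 2 ::
      (0 :: (bd n (sg N1.L) (sg N1.C) m ++ (hM n m ++ 3 ::
      (τ.flatMap (fun i => N1.S i :: T1 n m i) ++
        4 :: τ.flatMap (fun i => (N2 m).S i :: T2 m i))))) := by
    rw [wform]
    simp only [hH, List.append_assoc, List.cons_append, List.nil_append]
  rw [e]
  apply MWK.pre_split
  apply nm_of_count
  simp only [List.count_append, List.count_cons, List.count_replicate, beq_iff_eq]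
  split_ifs <;> omega

theorem p2c (n : ℕ) (τ : List ℕ) (m z : ℕ) : (pre (w0 n τ m true true) 2).count z =
    (if z = 0 then 1 else 0) + (if z = 1 then 1 else 0) + (if z = 5 then 3 * n + 1 else 0) := by
  rw [pre2]
  simp only [List.count_append, List.count_cons, List.count_replicate, beq_iff_eq]
  split_ifs <;> omega

theorem pre3 (n : ℕ) (τ : List ℕ) (m : ℕ) : pre (w0 n τ m true true) 3 =
    hH n ++ (bd n (sg N1.L) (sg N1.C) m ++ hM n m) := by
  have e : w0 n τ m true true =
    (hH n ++ (bd n (sg N1.L) (sg N1.C) m ++ hM n m)) ++ 3 ::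
      (τ.flatMap (fun i => N1.S i :: T1 n m i) ++
        4 :: τ.flatMap (fun i => (N2 m).S i :: T2 m i)) := by
    rw [wform]
    simp only [List.append_assoc]
  rw [e]
  apply MWK.pre_split
  apply nm_of_count
  rw [List.count_append, List.count_append, cH, cB1, cM,
    if_neg (show ¬ (3 = 8 + 6 * m ∨ 3 = 14 + 6 * m) by omega)]
  simp

theorem p3c (n : ℕ) (τ : List ℕ) (m z : ℕ) : (pre (w0 n τ m true true) 3).count z =
      ((if z = 0 then 2 else 0) + (if z = 1 then 1 else 0) + (if z = 2 then 1 else 0) +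
        (if z = 5 then 3 * n + 1 else 0)) +
      (((if z % 6 = 2 ∧ 8 ≤ z ∧ z < 8 + 6 * m then 1 else 0) +
        (if z % 6 = 3 ∧ 9 ≤ z ∧ z < 9 + 6 * m then n + 1 else 0)) +
      ((if z = 8 + 6 * m ∨ z = 14 + 6 * m then 1 else 0) + (if z = 1 then 1 else 0) +
        (if z = 6 then 3 * n + 1 else 0))) := by
  rw [pre3, List.count_append, List.count_append, cH, cB1, cM]

/-- the part in front of a light letter of level 1 -/
def hJ (n m j : ℕ) : List ℕ :=
  if j < m then [] else if j = m then List.replicate n 6 else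
    List.replicate n 6 ++ (8 + 6 * m) :: List.replicate (n + 1) 6

theorem preL (hB : MWGQ.PrbStmt) (n : ℕ) (τ : List ℕ) (m j : ℕ) (hj : j ≤ m + 1) :
    pre (w0 n τ m true true) (8 + 6 * j) =
      hH n ++ (bd n (sg N1.L) (sg N1.C) (min j m) ++ hJ n m j) := by
  rw [wform, MWK.pre_append (by
    apply nm_of_count
    rw [cH]
    split_ifs <;> omega)]
  congr 1
  unfold hJ
  rcases Nat.lt_or_ge j m with h | h
  · rw [if_pos h, min_eq_left (by omega), List.append_nil]
    exact hB n N1.L N1.C m j h (fun i _ i' _ h => by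
      have h1 : N1.L i = 8 + 6 * i := rfl
      have h2 : N1.L i' = 8 + 6 * i' := rfl
      omega) (fun i _ i' _ h => by
      have h1 : N1.C i = 9 + 6 * i := rfl
      have h2 : N1.L i' = 8 + 6 * i' := rfl
      omega) _
  · rw [if_neg (by omega), min_eq_right h, MWK.pre_append (by
      apply nm_of_count
      rw [cB1, if_neg (by omega), if_neg (by omega)])]
    congr 1
    by_cases h2 : j = m + 1
    · subst h2
      rw [if_neg (by omega)]
      have h3 : 8 + 6 * (m + 1) = 14 + 6 * m := by ring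
      have e : ∀ R : List ℕ, hM n m ++ R = (List.replicate n 6 ++ (8 + 6 * m) ::
          List.replicate (n + 1) 6) ++ (14 + 6 * m) :: (List.replicate n 6 ++ [1] ++ R) := by
        intro R
        simp only [hM, List.append_assoc, List.cons_append, List.nil_append]
      rw [h3, e]
      apply MWK.pre_split
      apply nm_of_count
      simp only [List.count_append, List.count_cons, List.count_replicate, beq_iff_eq]
      split_ifs <;> omega
    · have h3 : j = m := by omega
      subst h3
      rw [if_pos rfl]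
      unfold hM
      rw [List.append_assoc, List.cons_append]
      exact MWK.pre_split (nm_rep (show 8 + 6 * j ≠ 6 by omega)) _

theorem preS (hF : MWGN.PrfStmt) {n : ℕ} {τ : List ℕ} {m : ℕ} (hτ : Tau τ m) (j : ℕ)
    (hj : j ≤ m) : pre (w0 n τ m true true) (7 + 6 * j) =
      (hH n ++ (bd n (sg N1.L) (sg N1.C) m ++ (hM n m ++ [3]))) ++
        (pre τ j).flatMap (fun i => N1.S i :: T1 n m i) := by
  have e : w0 n τ m true true =
    (hH n ++ (bd n (sg N1.L) (sg N1.C) m ++ (hM n m ++ [3]))) ++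
      (τ.flatMap (fun i => N1.S i :: T1 n m i) ++
        4 :: τ.flatMap (fun i => (N2 m).S i :: T2 m i)) := by
    rw [wform]
    simp only [List.append_assoc, List.cons_append, List.nil_append]
  rw [e, MWK.pre_append (by
    apply nm_of_count
    rw [List.count_append, List.count_append, List.count_append, cH, cB1, cM]
    simp only [List.count_cons, List.count_nil, beq_iff_eq]
    split_ifs <;> omega)]
  congr 1
  exact hF N1.S (T1 n m) τ j ((hτ.2 j).2 hj) (fun i _ hne h => by
    have h1 : N1.S i = 7 + 6 * i := rfl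
    have h2 : N1.S j = 7 + 6 * j := rfl
    omega) (fun i _ hne => by
    have h2 : N1.S j = 7 + 6 * j := rfl
    have h3 := cT1 n m i (7 + 6 * j) (Or.inl (by omega)) (Or.inl (by omega))
    rw [if_neg (by omega), if_neg (by omega), if_neg (by omega), List.count_cons] at h3
    rw [h2]
    apply nm_of_count
    omega) _

theorem pSc (hF : MWGN.PrfStmt) {n : ℕ} {τ : List ℕ} {m : ℕ} (hτ : Tau τ m) (j z : ℕ)
    (hj : j ≤ m) : (pre (w0 n τ m true true) (7 + 6 * j)).count z =
      (((if z = 0 then 2 else 0) + (if z = 1 then 1 else 0) + (if z = 2 then 1 else 0) +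
        (if z = 5 then 3 * n + 1 else 0)) +
      (((if z % 6 = 2 ∧ 8 ≤ z ∧ z < 8 + 6 * m then 1 else 0) +
        (if z % 6 = 3 ∧ 9 ≤ z ∧ z < 9 + 6 * m then n + 1 else 0)) +
      (((if z = 8 + 6 * m ∨ z = 14 + 6 * m then 1 else 0) + (if z = 1 then 1 else 0) +
        (if z = 6 then 3 * n + 1 else 0)) + (if 3 = z then 1 else 0)))) +
        ((pre τ j).flatMap (fun i => N1.S i :: T1 n m i)).count z := by
  rw [preS hF hτ j hj, List.count_append, List.count_append, List.count_append,
    List.count_append, cH, cB1, cM]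
  simp only [List.count_cons, List.count_nil, beq_iff_eq, Nat.zero_add]

theorem pLc (hB : MWGQ.PrbStmt) (n : ℕ) (τ : List ℕ) (m j z : ℕ) (hj : j ≤ m + 1)
    (hz : z ≠ 8 + 6 * m) (hz6 : z ≠ 6) :
    (pre (w0 n τ m true true) (8 + 6 * j)).count z =
      ((if z = 0 then 2 else 0) + (if z = 1 then 1 else 0) + (if z = 2 then 1 else 0) +
        (if z = 5 then 3 * n + 1 else 0)) +
      ((if z % 6 = 2 ∧ 8 ≤ z ∧ z < 8 + 6 * (min j m) then 1 else 0) +
        (if z % 6 = 3 ∧ 9 ≤ z ∧ z < 9 + 6 * (min j m) then n + 1 else 0)) := by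
  rw [preL hB n τ m j hj, List.count_append, List.count_append, cH, cB1]
  have h : (hJ n m j).count z = 0 := by
    apply List.count_eq_zero_of_not_mem
    unfold hJ
    split_ifs
    · exact List.not_mem_nil
    · exact nm_rep hz6
    · intro h
      rcases List.mem_append.1 h with h | h
      · exact nm_rep hz6 h
      · rcases List.mem_cons.1 h with h | h
        · exact hz h
        · exact nm_rep hz6 h
  rw [h]
  rfl

theorem sa1 (hF : MWGN.PrfStmt) (hB : MWGQ.PrbStmt) : Sa1Stmt := by
  intro n δ hn hδ τ m hτ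
  refine ⟨?_, ?_, ?_, ?_, ?_, ?_⟩
  · refine
      { sa := w_2 hτ
        sb := w_3 hτ
        ob := ?_
        x2 := ?_
        y2 := ?_
        xa := ?_
        ya := ?_
        xb := ?_
        yb := ?_
        l2 := ?_
        l0 := ?_
        lb := ?_
        c2 := ?_
        c0 := ?_
        cb := ?_
        xl := ?_
        yl := ?_
        cl0 := ?_
        cl1 := ?_ }
    · show (pre (w0 n τ m true true) 2).count 3 = 0
      rw [p2c]
      simp
    · show 2 ≤ (w0 n τ m true true).count 0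
      rw [w_0 hτ]
    · show 2 ≤ (w0 n τ m true true).count 1
      rw [w_1 hτ]
    · show (pre (w0 n τ m true true) 2).count 0 = 1
      rw [p2c]
      simp
    · show (pre (w0 n τ m true true) 2).count 1 = 1
      rw [p2c]
      simp
    · show (pre (w0 n τ m true true) 3).count 0 = (w0 n τ m true true).count 0
      rw [w_0 hτ, p3c, if_neg (show ¬ (0 = 8 + 6 * m ∨ 0 = 14 + 6 * m) by omega)]
      simp
    · show (pre (w0 n τ m true true) 3).count 1 = (w0 n τ m true true).count 1
      rw [w_1 hτ, p3c, if_neg (show ¬ (1 = 8 + 6 * m ∨ 1 = 14 + 6 * m) by omega)]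
      simp
    · intro i hi
      show 2 ≤ (w0 n τ m true true).count (8 + 6 * i)
      rw [w_L hτ i hi]
    · intro i hi
      show (pre (w0 n τ m true true) 2).count (8 + 6 * i) = 0
      rw [p2c, if_neg (by omega), if_neg (by omega), if_neg (by omega)]
    · intro i hi
      show (pre (w0 n τ m true true) 3).count (8 + 6 * i) = 1
      rw [p3c, if_neg (show ¬ (8 + 6 * i = 0) by omega),
        if_neg (show ¬ (8 + 6 * i = 1) by omega), if_neg (show ¬ (8 + 6 * i = 2) by omega),
        if_neg (show ¬ (8 + 6 * i = 5) by omega), if_neg (show ¬ (8 + 6 * i = 6) by omega),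
        if_neg (show ¬ ((8 + 6 * i) % 6 = 3 ∧ 9 ≤ 8 + 6 * i ∧ 8 + 6 * i < 9 + 6 * m) by omega)]
      split_ifs <;> omega
    · intro i hi
      show 2 ≤ (w0 n τ m true true).count (9 + 6 * i)
      rw [w_C hτ i hi]
      omega
    · intro i hi
      show (pre (w0 n τ m true true) 2).count (9 + 6 * i) = 0
      rw [p2c, if_neg (by omega), if_neg (by omega), if_neg (by omega)]
    · intro i hi
      show (pre (w0 n τ m true true) 3).count (9 + 6 * i) =
        (w0 n τ m true true).count (9 + 6 * i)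
      rw [w_C hτ i hi, p3c, if_neg (show ¬ (9 + 6 * i = 0) by omega),
        if_neg (show ¬ (9 + 6 * i = 1) by omega), if_neg (show ¬ (9 + 6 * i = 2) by omega),
        if_neg (show ¬ (9 + 6 * i = 5) by omega), if_neg (show ¬ (9 + 6 * i = 6) by omega),
        if_pos (show (9 + 6 * i) % 6 = 3 ∧ 9 ≤ 9 + 6 * i ∧ 9 + 6 * i < 9 + 6 * m by omega)]
      split_ifs <;> omega
    · intro i hi
      show (pre (w0 n τ m true true) (8 + 6 * i)).count 0 = (w0 n τ m true true).count 0
      rw [w_0 hτ, pLc hB n τ m i 0 hi (by omega) (by omega)]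
      simp
    · intro i hi
      show (pre (w0 n τ m true true) (8 + 6 * i)).count 1 = 1
      rw [pLc hB n τ m i 1 hi (by omega) (by omega)]
      simp
    · intro i hi j hj
      show (pre (w0 n τ m true true) (8 + 6 * j)).count (9 + 6 * i) = 0
      rw [pLc hB n τ m j _ (by omega) (by omega) (by omega), min_eq_left (by omega),
        if_neg (by omega), if_neg (by omega), if_neg (by omega), if_neg (by omega),
        if_neg (by omega), if_neg (by omega)]
    · intro i hi j hj hj'
      show (pre (w0 n τ m true true) (8 + 6 * j)).count (9 + 6 * i) =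
        (w0 n τ m true true).count (9 + 6 * i)
      have h1 : i < min j m := lt_min hj hi
      rw [w_C hτ i hi, pLc hB n τ m j _ (by omega) (by omega) (by omega),
        if_neg (by omega), if_neg (by omega), if_neg (by omega), if_neg (by omega),
        if_neg (by omega), if_pos (by omega)]
      omega
  · refine
      { ss := ?_
        oS := ?_
        os := ?_
        lt := ?_
        lT := ?_ }
    · intro i hi
      show (w0 n τ m true true).count (7 + 6 * i) = 1
      exact w_S hτ i hi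
    · intro i hi
      show (pre (w0 n τ m true true) 3).count (7 + 6 * i) = 0
      rw [p3c, if_neg (by omega), if_neg (by omega), if_neg (by omega), if_neg (by omega),
        if_neg (by omega), if_neg (by omega), if_neg (by omega), if_neg (by omega)]
    · intro i j hi hj hij
      show (pre (w0 n τ m true true) (7 + 6 * i)).count (7 + 6 * j) = 0
      have h1 : ((pre τ i).flatMap (fun i => N1.S i :: T1 n m i)).count (7 + 6 * j) = 0 := by
        apply cfm_zero
        intro i' hi'
        have hne : i' ≠ j := by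
          rintro rfl
          exact MWK.pre_asymm hij hi'
        rw [cT1 n m i' _ (Or.inl (by omega)) (Or.inl (by omega)), if_neg (by omega),
          if_neg (by omega), if_neg (by omega)]
      rw [pSc hF hτ i _ hi, h1, if_neg (by omega), if_neg (by omega), if_neg (by omega),
        if_neg (by omega), if_neg (by omega), if_neg (by omega), if_neg (by omega),
        if_neg (by omega), if_neg (by omega)]
    · intro i hi
      show (pre (w0 n τ m true true) (7 + 6 * i)).count (8 + 6 * i) = 1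
      have h1 : ((pre τ i).flatMap (fun i => N1.S i :: T1 n m i)).count (8 + 6 * i) = 0 := by
        apply cfm_zero
        intro i' hi'
        have hne : i' ≠ i := by
          rintro rfl
          exact MWK.not_mem_pre _ _ hi'
        rw [cT1 n m i' _ (Or.inl (by omega)) (Or.inl (by omega)), if_neg (by omega),
          if_neg (by omega), if_neg (by omega)]
      rw [pSc hF hτ i _ hi, h1, if_neg (show ¬ (8 + 6 * i = 0) by omega),
        if_neg (show ¬ (8 + 6 * i = 1) by omega), if_neg (show ¬ (8 + 6 * i = 2) by omega),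
        if_neg (show ¬ (8 + 6 * i = 5) by omega), if_neg (show ¬ (8 + 6 * i = 6) by omega),
        if_neg (show ¬ (3 = 8 + 6 * i) by omega),
        if_neg (show ¬ ((8 + 6 * i) % 6 = 3 ∧ 9 ≤ 8 + 6 * i ∧ 8 + 6 * i < 9 + 6 * m) by omega)]
      split_ifs <;> omega
    · intro i j hi hj hij
      show (pre (w0 n τ m true true) (7 + 6 * j)).count (8 + 6 * i) =
        (w0 n τ m true true).count (8 + 6 * i)
      have h1 : ((pre τ j).flatMap (fun i => N1.S i :: T1 n m i)).count (8 + 6 * i) = 1 := by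
        rw [cfm_one (τ := pre τ j) ((List.takeWhile_sublist _).nodup hτ.1) hij,
          cT1 n m i _ (Or.inl (by omega)) (Or.inl (by omega)), if_neg (by omega), if_pos rfl,
          if_neg (by omega)]
        intro i' hi' hne
        rw [cT1 n m i' _ (Or.inl (by omega)) (Or.inl (by omega)), if_neg (by omega),
          if_neg (by omega), if_neg (by omega)]
      rw [w_L hτ i (by omega), pSc hF hτ j _ hj, h1, if_neg (show ¬ (8 + 6 * i = 0) by omega),
        if_neg (show ¬ (8 + 6 * i = 1) by omega), if_neg (show ¬ (8 + 6 * i = 2) by omega),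
        if_neg (show ¬ (8 + 6 * i = 5) by omega), if_neg (show ¬ (8 + 6 * i = 6) by omega),
        if_neg (show ¬ (3 = 8 + 6 * i) by omega),
        if_neg (show ¬ ((8 + 6 * i) % 6 = 3 ∧ 9 ≤ 8 + 6 * i ∧ 8 + 6 * i < 9 + 6 * m) by omega)]
      split_ifs <;> omega
  · refine ⟨?_, ?_⟩
    · rw [w_5 hτ]
      omega
    · show (pre (w0 n τ m true true) 2).count 5 = (w0 n τ m true true).count 5
      rw [w_5 hτ, p2c]
      simp
  · show (pre (w0 n τ m true true) 1).count 5 ≡ (pre (w0 n τ m true true) 0).count 5 + 1 [MOD δ]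
    rw [pre0, pre1]
    have e1 : (List.replicate n 5 ++ 0 :: List.replicate (n + 1) 5).count 5 = n + (n + 1) := by
      rw [List.count_append, List.count_cons, List.count_replicate_self,
        List.count_replicate_self]
      simp
    have e2 : (List.replicate n 5).count 5 = n := List.count_replicate_self
    rw [e1, e2]
    have h0 : n ≡ 0 [MOD δ] := (Nat.modEq_zero_iff_dvd).2 hδ
    have := h0.add_right (n + 1)
    simpa using this
  · refine
      { x := ?_
        y := ?_
        l := ?_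
        c := ?_ }
    · show (w0 n τ m true true).count 0 ≡ 2 [MOD n]
      rw [w_0 hτ]
    · show (w0 n τ m true true).count 1 ≡ 2 [MOD n]
      rw [w_1 hτ]
    · intro i hi
      show (w0 n τ m true true).count (8 + 6 * i) ≡ 2 [MOD n]
      rw [w_L hτ i hi]
    · intro i hi
      show (w0 n τ m true true).count (9 + 6 * i) ≡ 1 [MOD n]
      rw [w_C hτ i hi]
      unfold Nat.ModEq
      rw [Nat.add_mod_left]
  · show (pre (w0 n τ m true true) 1).count 0 = 1
    rw [pre1]
    simp [List.count_append, List.count_replicate]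

end Pool.Agent.MWGX.H81
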